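import Pool.Agent.Helper75.PZ.Stmts2

/-! Row OM: the operators are closed under composition. -/

set_option autoImplicit false

universe u

namespace Pool.Agent.Helper37.PZ

open Pool.Agent.Helper75.PZ

section

variable {F M : Type u} [Field F] [Field M] [Algebra F M] {σ : M ≃ₐ[F] M}
  {φ ψ : HS M →ₐ[F] HS M}

theorem OM_lex (a b : G2) (h1 : n1 a = n1 b) (h2 : n2 a = n2 b) : a = b := by
  apply ofLex.injective
  exact Prod.ext h1 h2

/-- `φ` commutes with `ψ` -/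
theorem OM_comm (hφ : PHI σ φ) (hψ : PSI ψ) (h : HS M) : φ (ψ h) = ψ (φ h) := by
  ext γ
  rw [hφ]
  by_cases h6 : 6 ∣ n1 γ
  · obtain ⟨c, hc⟩ := h6
    have e1 := hψ.1 h (toLex (c, n2 γ)) γ hc rfl
    have e2 := hψ.1 (φ h) (toLex (c, n2 γ)) γ hc rfl
    rw [e1, e2, hφ]
    rfl
  · rw [hψ.2 h γ h6, hψ.2 (φ h) γ h6]
    simp

theorem OM_XX (hφ : PHI σ φ) : φ (XX M) = XX M := by
  ext γ
  rw [hφ]
  unfold XX
  by_cases h : γ = toLex ((1 : ℤ), (0 : ℤ))
  · subst h
    rw [HahnSeries.coeff_single_same]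
    simp [n2]
  · rw [HahnSeries.coeff_single_of_ne h]
    simp

theorem OM_six (hφ : PHI σ φ) (hσ : ∀ m, σ (σ (σ m)) = m) (h : HS M) :
    φ^[6] h = h := by
  ext γ
  have hs : ∀ m : M, σ ((-1 : M) ^ (n2 γ) * m) = (-1 : M) ^ (n2 γ) * σ m := by
    intro m
    rw [map_mul, map_zpow₀]
    simp
  have hq : (-1 : M) ^ (n2 γ) * (-1 : M) ^ (n2 γ) = 1 := by
    rw [← mul_zpow]
    simp
  simp only [Function.iterate_succ, Function.iterate_zero, Function.comp_apply, id_eq, hφ _ γ,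
    hs]
  have : ∀ x : M, (-1 : M) ^ (n2 γ) * ((-1 : M) ^ (n2 γ) * x) = x := by
    intro x
    rw [← mul_assoc, hq, one_mul]
  simp only [this, hσ]

theorem OM_XX6 (hψ : PSI ψ) : XX M ^ 6 = ψ (XX M) := by
  have e : XX M ^ 6 = HahnSeries.single (toLex ((6 : ℤ), (0 : ℤ))) (1 : M) := by
    unfold XX
    rw [HahnSeries.single_pow]
    simp
    rfl
  rw [e]
  ext γ
  by_cases h6 : 6 ∣ n1 γ
  · obtain ⟨c, hc⟩ := h6
    rw [hψ.1 (XX M) (toLex (c, n2 γ)) γ hc rfl]
    unfold XX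
    by_cases h : γ = toLex ((6 : ℤ), (0 : ℤ))
    · have h1 : c = 1 := by
        rw [h] at hc
        have : (6 : ℤ) = 6 * c := hc
        omega
      have h2 : n2 γ = 0 := by
        rw [h]
        rfl
      rw [h1, h2, HahnSeries.coeff_single_same, h, HahnSeries.coeff_single_same]
    · rw [HahnSeries.coeff_single_of_ne h, HahnSeries.coeff_single_of_ne]
      intro h3
      apply h
      have h4 : c = 1 := congrArg n1 h3
      have h5 : n2 γ = 0 := congrArg n2 h3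
      refine OM_lex _ _ ?_ ?_
      · rw [hc, h4]
        rfl
      · rw [h5]
        rfl
  · rw [hψ.2 _ γ h6, HahnSeries.coeff_single_of_ne]
    intro h
    apply h6
    rw [h]
    exact dvd_refl _

theorem OM_it (hφ : PHI σ φ) (hψ : PSI ψ) (l : ℕ) (h : HS M) :
    φ^[l] (ψ h) = ψ (φ^[l] h) := by
  induction l generalizing h with
  | zero => rfl
  | succ l ih => rw [Function.iterate_succ_apply, Function.iterate_succ_apply, OM_comm hφ hψ, ih]

theorem OM_itX (hφ : PHI σ φ) (l k : ℕ) : φ^[l] (XX M ^ k) = XX M ^ k := by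
  induction l with
  | zero => rfl
  | succ l ih => rw [Function.iterate_succ_apply, map_pow, OM_XX hφ, ih]

theorem OM_itm (l : ℕ) (a b : HS M) : φ^[l] (a * b) = φ^[l] a * φ^[l] b := by
  induction l generalizing a b with
  | zero => rfl
  | succ l ih => rw [Function.iterate_succ_apply, map_mul, ih]; rfl

theorem OM_its (l : ℕ) (f : Fin 6 → HS M) :
    φ^[l] (∑ i, f i) = ∑ i, φ^[l] (f i) := by
  induction l generalizing f with
  | zero => rfl
  | succ l ih => rw [Function.iterate_succ_apply, map_sum, ih]; rfl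

/-- a term of degree `l` below twelve is an operator -/
theorem OM_term (hφ : PHI σ φ) (hψ : PSI ψ) (hσ : ∀ m, σ (σ (σ m)) = m) (c : HS M) (l : ℕ) :
    ∃ e : Fin 6 → HS M, ∀ f, ψ c * XX M ^ l * (φ^[l]) f = op φ ψ e f := by
  induction l using Nat.strong_induction_on generalizing c with
  | _ l ih =>
    by_cases h : l < 6
    · refine ⟨Pi.single ⟨l, h⟩ c, fun f => ?_⟩
      unfold op
      rw [Finset.sum_eq_single (⟨l, h⟩ : Fin 6)]
      · rw [Pi.single_eq_same]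
      · intro b _ hb
        rw [Pi.single_eq_of_ne hb]
        simp
      · simp
    · obtain ⟨k, rfl⟩ : ∃ k, l = k + 6 := ⟨l - 6, by omega⟩
      obtain ⟨e, he⟩ := ih k (by omega) (c * XX M)
      refine ⟨e, fun f => ?_⟩
      rw [← he, Function.iterate_add_apply, OM_six hφ hσ, map_mul, ← OM_XX6 hψ, pow_add]
      ring

theorem OM_add (e e' : Fin 6 → HS M) (f : HS M) :
    op φ ψ e f + op φ ψ e' f = op φ ψ (e + e') f := by
  unfold op
  rw [← Finset.sum_add_distrib]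
  refine Finset.sum_congr rfl fun l _ => ?_
  rw [Pi.add_apply, map_add]
  ring

theorem OM_sum {ι : Type*} (s : Finset ι) (T : ι → HS M → HS M)
    (h : ∀ i ∈ s, ∃ e : Fin 6 → HS M, ∀ f, T i f = op φ ψ e f) :
    ∃ e : Fin 6 → HS M, ∀ f, ∑ i ∈ s, T i f = op φ ψ e f := by
  classical
  induction s using Finset.induction_on with
  | empty =>
    refine ⟨0, fun f => ?_⟩
    unfold op
    simp
  | insert a s ha ih =>
    obtain ⟨e1, h1⟩ := h a (Finset.mem_insert_self a s)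
    obtain ⟨e2, h2⟩ := ih fun i hi => h i (Finset.mem_insert_of_mem hi)
    refine ⟨e1 + e2, fun f => ?_⟩
    rw [Finset.sum_insert ha, h1, h2, OM_add]

end

theorem st_OM : ST_OM.{u} := by
  intro F M _ _ _ σ φ ψ hφ hψ hσ e e'
  have key : ∀ l : Fin 6, ∀ l' : Fin 6, ∃ e2 : Fin 6 → HS M, ∀ f,
      ψ (e l) * XX M ^ (l : ℕ) * (φ^[(l : ℕ)]) (ψ (e' l') * XX M ^ (l' : ℕ) *
        (φ^[(l' : ℕ)]) f) = op φ ψ e2 f := by
    intro l l'
    obtain ⟨e2, h2⟩ := OM_term hφ hψ hσ (e l * φ^[(l : ℕ)] (e' l')) ((l : ℕ) + (l' : ℕ))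
    refine ⟨e2, fun f => ?_⟩
    rw [← h2, OM_itm, OM_itm, OM_it hφ hψ, OM_itX hφ, ← Function.iterate_add_apply, map_mul,
      pow_add]
    ring
  obtain ⟨e3, h3⟩ := OM_sum (φ := φ) (ψ := ψ) Finset.univ
    (fun (l : Fin 6) f => ∑ l' : Fin 6, ψ (e l) * XX M ^ (l : ℕ) * (φ^[(l : ℕ)])
      (ψ (e' l') * XX M ^ (l' : ℕ) * (φ^[(l' : ℕ)]) f)) (fun l _ =>
        OM_sum Finset.univ _ fun l' _ => key l l')
  refine ⟨e3, fun f => ?_⟩
  rw [← h3]
  show op φ ψ e (op φ ψ e' f) = _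
  unfold op
  refine Finset.sum_congr rfl fun l _ => ?_
  rw [OM_its, Finset.mul_sum]

end Pool.Agent.Helper37.PZ
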