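import Pool.Agent.Helper75.PZ.Stmts2

/-! Row SIM: the algebra of the operators is simple of dimension 36. -/

set_option autoImplicit false

universe u

open Module TensorProduct

namespace Pool.Agent.Helper37.PZ

open Pool.Agent.Helper75.PZ

theorem st_SIM (hGD : ST_GD.{u}) : ST_SIM.{u} := by
  intro F M _ _ _ σ φ ψ hφ hψ hσ K hK A _ _ E Φ hΦ
  have hfd : FiniteDimensional K (HS M) := by
    refine FiniteDimensional.of_finrank_pos ?_
    rw [hK]
    norm_num
  have hfA : finrank K A = 36 := by
    rw [E.finrank_eq, Module.finrank_pi_fintype]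
    simp [hK]
  have hfdA : FiniteDimensional K A := by
    refine FiniteDimensional.of_finrank_pos ?_
    rw [hfA]
    norm_num
  have hne : ∀ a : A, a ≠ 0 → ∀ f : HS M, f ≠ 0 → Φ a f ≠ 0 := by
    intro a ha f hf
    rw [hΦ]
    exact (hGD F M σ φ ψ hφ hψ hσ (E a) (by simpa using ha) f hf).1
  have hnt : Nontrivial A := by
    refine nontrivial_of_ne (1 : A) 0 fun h => ?_
    have h1 : finrank K A = 0 := by
      have : Subsingleton A := subsingleton_of_zero_eq_one h.symm
      exact Module.finrank_zero_of_subsingleton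
    rw [hfA] at h1
    norm_num at h1
  have hnz : NoZeroDivisors A := by
    refine ⟨fun {a b} hab => ?_⟩
    by_contra hc
    push Not at hc
    have h1 := hne b hc.2 1 one_ne_zero
    have h2 := hne a hc.1 _ h1
    apply h2
    have h3 : Φ a (Φ b 1) = Φ (a * b) 1 := by
      rw [map_mul]
      rfl
    rw [h3, hab, map_zero]
    rfl
  refine ⟨?_, hfA⟩
  have hinv : ∀ a : A, a ≠ 0 → ∃ b, a * b = 1 := by
    intro a ha
    have hinj : Function.Injective (LinearMap.mulLeft K a) := by
      intro x y hxy
      have h1 : a * (x - y) = 0 := by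
        have : a * x = a * y := hxy
        rw [mul_sub, this, sub_self]
      rcases mul_eq_zero.1 h1 with h | h
      · exact absurd h ha
      · exact sub_eq_zero.1 h
    have hsur := LinearMap.injective_iff_surjective.1 hinj
    obtain ⟨b, hb⟩ := hsur 1
    exact ⟨b, hb⟩
  refine ⟨⟨fun I => ?_⟩⟩
  by_cases hI : I = ⊥
  · exact Or.inl hI
  · right
    have : ∃ x ∈ I, x ≠ 0 := by
      by_contra hc
      push Not at hc
      apply hI
      rw [eq_bot_iff]
      intro x hx
      rw [hc x hx]
      exact (⊥ : TwoSidedIdeal A).zero_mem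
    obtain ⟨x, hx, hx0⟩ := this
    obtain ⟨b, hb⟩ := hinv x hx0
    rw [eq_top_iff]
    intro y _
    have h1 : (1 : A) ∈ I := by
      rw [← hb]
      exact I.mul_mem_right x b hx
    have h2 := I.mul_mem_left y 1 h1
    rwa [mul_one] at h2

end Pool.Agent.Helper37.PZ
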